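import Pool.Agent.Y706.CH.Stm5

set_option autoImplicit false

/-!
# Project CH (helper706): S_HTE, S_DEG, S_LSUP, S_P1M
-/

namespace Pool.Agent.Y555.CH

open Finset Polynomial Pool.Agent.Y706.CH Pool.Agent.W277.UB Pool.Agent.W277.UG Pool.Agent.W277.UH

universe u v w

theorem t_HTE : S_HTE.{u, v, w} := by
  intro k E L _ _ _ _ _ _ _ _ x
  rw [Module.finrank_mul_finrank (IntermediateField.adjoin k {x}) E L]
  let f : E →ₐ[k] L := IsScalarTower.toAlgHom k E L
  have h1 : (IntermediateField.adjoin k {x}).map f = IntermediateField.adjoin k {algebraMap E L x} := by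
    rw [IntermediateField.adjoin_map, Set.image_singleton]
    rfl
  rw [← h1]
  symm
  refine Algebra.finrank_eq_of_equiv_equiv
    ((IntermediateField.adjoin k {x}).equivMap f).toRingEquiv (RingEquiv.refl L) ?_
  ext y
  rfl

theorem card_deg (L : Type v) (M : Type u) [Field L] [Field M] [Algebra L M] (W : L[X])
    (r : ℕ) (hW : W ≠ 0) (hr : W.natDegree ≤ r) (S : Finset M) (hS : ∀ x ∈ S, x ∈ W.rootSet M) :
    FiniteDimensional L (IntermediateField.adjoin L (S : Set M)) ∧
    Module.finrank L (IntermediateField.adjoin L (S : Set M)) ≤ (r + 1) ^ S.card := by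
  classical
  induction S using Finset.induction_on with
  | empty =>
    rw [Finset.coe_empty, IntermediateField.adjoin_empty]
    refine ⟨inferInstance, ?_⟩
    simp
  | insert a S ha ih =>
    obtain ⟨i1, i2⟩ := ih fun x hx => hS x (mem_insert_of_mem hx)
    have h1 : IntermediateField.adjoin L ((insert a S : Finset M) : Set M) =
        IntermediateField.adjoin L {a} ⊔ IntermediateField.adjoin L (S : Set M) := by
      rw [Finset.coe_insert, Set.insert_eq, IntermediateField.adjoin_union]
    have ha' := hS a (mem_insert_self _ _)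
    have haW : aeval a W = 0 := (mem_rootSet.1 ha').2
    have hint : IsIntegral L a := by
      rw [← isAlgebraic_iff_isIntegral]
      exact ⟨W, hW, haW⟩
    have := IntermediateField.adjoin.finiteDimensional hint
    rw [h1]
    refine ⟨inferInstance, ?_⟩
    refine (IntermediateField.finrank_sup_le _ _).trans ?_
    rw [card_insert_of_notMem ha, pow_succ']
    refine Nat.mul_le_mul ?_ i2
    rw [IntermediateField.adjoin.finrank hint]
    exact (natDegree_le_of_dvd (minpoly.dvd L a haW) hW).trans (hr.trans (Nat.le_succ r))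

theorem t_LSUP : S_LSUP := by
  intro x d B a hd ha h M₀
  by_contra hcon
  push Not at hcon
  have hB : B ≠ 0 := by
    rintro rfl
    simp at h
    omega
  have hle : Filter.limsup (fun m => (x m : ENNReal) / (d : ENNReal) ^ m) Filter.atTop ≤
      (a : ENNReal) / (2 * B) := by
    refine Filter.limsup_le_of_le ?_ ?_
    · isBoundedDefault
    · filter_upwards [Filter.eventually_ge_atTop M₀] with m hm
      have h1 := hcon m hm
      rw [ENNReal.div_le_iff (by positivity) (by finiteness), mul_comm, ← mul_div_assoc,
        ENNReal.le_div_iff_mul_le]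
      · have h2 : x m * (2 * B) ≤ d ^ m * a := by
          rw [mul_comm]; exact h1.le
        exact_mod_cast h2
      · left; positivity
      · left; finiteness
  have h2 : (a : ENNReal) ≤ B * ((a : ENNReal) / (2 * B)) := h.trans (mul_le_mul_right hle _)
  have h3 : (B : ENNReal) * ((a : ENNReal) / (2 * B)) = (a : ENNReal) / 2 := by
    rw [← mul_div_assoc, mul_comm (B : ENNReal), ENNReal.mul_div_mul_right]
    · exact_mod_cast hB
    · finiteness
  rw [h3] at h2
  have h4 : (a : ENNReal) / 2 < a := ENNReal.half_lt_self (by exact_mod_cast ha.ne') (by finiteness)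
  exact absurd h2 (not_le.2 h4)

theorem t_DEG : S_DEG.{u, v} := by
  classical
  intro L M _ _ _ W r hW hr
  have h1 : (((W.rootSet M).toFinset : Finset M) : Set M) = W.rootSet M := Set.coe_toFinset _
  obtain ⟨i1, i2⟩ := card_deg L M W r hW hr (W.rootSet M).toFinset
    (fun x hx => Set.mem_toFinset.1 hx)
  rw [h1] at i1 i2
  refine ⟨i1, i2.trans (Nat.pow_le_pow_right (Nat.succ_pos r) ?_)⟩
  rw [← Set.ncard_eq_toFinset_card']
  exact (Polynomial.ncard_rootSet_le W M).trans hr


theorem t_P1M : S_P1M.{u, v} := by
  intro K N _ _ j p q d z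
  have hinj := j.injective
  cases z with
  | none =>
    show ratP1 (p.map j) (q.map j) d none = (ratP1 p q d none).map j
    by_cases h : q.coeff d = 0
    · rw [ratP1_none0 p q d h, ratP1_none0 _ _ _ (by rw [coeff_map, h, map_zero])]
      rfl
    · rw [ratP1_none p q d h, ratP1_none _ _ _ (by
        rw [coeff_map]; exact (map_ne_zero j).2 h), coeff_map, coeff_map, Option.map_some, map_div₀]
  | some x =>
    show ratP1 (p.map j) (q.map j) d (some (j x)) = (ratP1 p q d (some x)).map j
    have he : ∀ r : K[X], (r.map j).eval (j x) = j (r.eval x) := fun r => by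
      rw [eval_map, eval₂_at_apply]
    by_cases h : q.eval x = 0
    · rw [ratP1_some0 p q d x h, ratP1_some0 _ _ _ _ (by rw [he, h, map_zero])]
      rfl
    · rw [ratP1_some p q d x h, ratP1_some _ _ _ _ (by
        rw [he]; exact (map_ne_zero j).2 h), he, he, Option.map_some, map_div₀]

end Pool.Agent.Y555.CH
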